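import Pool.Agent.E8helper34.DI.Semi3

/-!
# Derived invariance of the numbers `h^{0,q}`: Iitaka fibres of dimension at most three

Let `X`, `Y` be smooth projective complex varieties of dimension `n` with `D(X) ≃ D(Y)`.  `KRing`,
`FM`, `Intertwines` are the structures of the starting files: the Hodge theory of `X`, the
isomorphism of cohomology induced by the equivalence (real, graded by `p - q`, isometric for the
Mukai pairings), and its compatibility with multiplication by classes `L`, `L'` of type `(1, 1)`.
It is compatible with `c₁` because the equivalence commutes with the Serre functors.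

`SemiPositive X L`: `L` is the class of a semipositive form (`nef`, and the elementary
positivity `pos` of `∫ i^{r²} λ^j ω^{n-r-j} x ∧ conj x` for holomorphic `r`-forms `x`).  Examples:

* `L = ± c₁`, if the canonical bundle or its inverse is semiample; `f : X → B` is the (anti-)Iitaka
  fibration;
* the pull-back of an ample class of `B`, if the equivalence is linear over `B`.

The theorem: for `r + k + 2 = n` the dimension of `L^k · H⁰(X, Ω^r)` is a derived invariant.  A
holomorphic `r`-form `x` satisfies `L^k x = 0` if and only if at least `r + 3 - g` of the `r`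
directions of `x` are horizontal, where `g` is the dimension of the general fibre of `f` (rank of
`λ = n - g`).  Hence:

* `g ≤ 2`: there is no such form, and all `h^{0,q} = h^{q,0}` are derived invariants;
* `g = 3`: these are the pull-backs of the `r`-forms of (a resolution of) the base `B`, which is
  the same for `X` and `Y`, as the (anti)canonical rings are isomorphic (Orlov); again all
  `h^{0,q}` are derived invariants.

There is no assumption on the special fibres of `f` (as in the starting file `SmallDefect`), on the
Albanese map or on `n`.

The proof: the hermitian form `∫ L^k x conj(y)` on `⨁_t H^{r+1+t, 1+t}` is a derived invariant.  It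
is negative definite on the classes `ω x + (y - ω² y)`, where `x`, `y` are `r`-forms in a complement
of the kernel of `L^k`.  Conversely it is nonnegative on a subspace of complementary dimension: the
classes of type `(r+1+t, 1+t)` with `t > 0`, the forms `g` with `L^k g = 0`, the classes `ω g`, and
the limit for `t → 0` of the primitive `(r+1, 1)`-classes of the Kähler classes `L + t ω`; this limit
does not meet the classes `ω g` because of the positivity for the largest power `L^m g ≠ 0`.
-/

namespace Pool.Agent.Results.MP_b4fe5e_ag.HolomorphicFormsH34

open Pool.Agent.W539.DI Pool.Agent.R929.DH Pool.Agent.E8helper34.DI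

/-- **Theorem.** -/
theorem result {n : ℕ} (X Y : KRing n) (L : X.R) (L' : Y.R) (hX : SemiPositive X L)
    (hY : SemiPositive Y L') (Φ : FM X Y) (hc : Intertwines Φ X.c Y.c) (hL : Intertwines Φ L L') :
    (∀ r k : ℕ, r + k + 2 = n → formsRank X L r k = formsRank Y L' r k) ∧
    ((∀ r k : ℕ, r + k + 2 = n → kerForms X L r k = ⊥ ∧ kerForms Y L' r k = ⊥) →
      ∀ q : ℕ, X.h q 0 = Y.h q 0 ∧ X.h 0 q = Y.h 0 q) ∧
    ((∀ r k : ℕ, r + k + 2 = n → Module.finrank ℂ (kerForms X L r k) =
        Module.finrank ℂ (kerForms Y L' r k)) →
      ∀ q : ℕ, X.h q 0 = Y.h q 0 ∧ X.h 0 q = Y.h 0 q) := by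
  have key : (∀ r k : ℕ, r + k + 2 = n → Module.finrank ℂ (kerForms X L r k) =
        Module.finrank ℂ (kerForms Y L' r k)) →
      ∀ q : ℕ, X.h q 0 = Y.h q 0 ∧ X.h 0 q = Y.h 0 q := by
    intro hker q
    have h1 := forms_eq hX hY hc hL hker q
    exact ⟨h1, by rw [X.h_swap, Y.h_swap]; exact h1⟩
  refine ⟨fun r k h => rank_eq hX hY hc hL h, fun hker => key fun r k h => ?_, key⟩
  rw [(hker r k h).1, (hker r k h).2, finrank_bot, finrank_bot]

end Pool.Agent.Results.MP_b4fe5e_ag.HolomorphicFormsH34
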