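import Pool.Agent.E8helper34.DI.Alb

/-!
# Derived invariance of Hodge numbers: varieties with small Albanese defect

Let `X`, `Y` be smooth projective complex varieties of dimension `n` with `D(X) ≃ D(Y)`.

`Variety n` is the Hodge theory of `X` (the structure `Twisted n` of the starting files: the
bigraded space `H^*(X, ℂ)` with the form `∫ x ∪ conj y`, a Kähler class with the hard Lefschetz
theorem and the Hodge–Riemann relations, and the first Chern class), and `FlatBundle X` is the same
for the cohomology `H^*(X, α) = ⨁ H^q(X, Ω^p ⊗ α)` with values in a unitary flat line bundle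
`α ∈ Pic⁰(X)`, where moreover `χ(Ω^p ⊗ α) = χ(Ω^p)`.  A derived equivalence induces isomorphisms
`Transform` of `H^*(X, ℂ)` with `H^*(Y, ℂ)` and of `H^*(X, α)` with `H^*(Y, β)`, which preserve
`p - q` and the Mukai pairings, if `α`, `β` are torsion and correspond to each other under the
isomorphism `Pic⁰(X) × Aut⁰(X) ≃ Pic⁰(Y) × Aut⁰(Y)` of Rouquier: the equivalence lifts to the cyclic
étale covers given by `α` and `β` (Bridgeland–Maciocia, Lombardi–Popa), and one takes eigenspaces.
If Rouquier's isomorphism does not identify `Pic⁰(X)` and `Pic⁰(Y)`, then abelian varieties act on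
`X` and `Y` with finite stabilisers (Popa–Schnell), so that `χ(X, Ω^p) = χ(Y, Ω^p) = 0` for all `p`.

`LowRowsVanish α r`: `H^q(X, Ω^p ⊗ α) = 0` for `p ≤ r`, `p + q ≤ n - 3`.  By the generic vanishing
theorems this holds for general (torsion) `α ∈ Pic⁰(X)`
* for `r = 0`, if the general fibre of the Albanese map has dimension at most two
  (Green–Lazarsfeld);
* for all `r`, if the defect of semismallness of the Albanese map is at most two (Popa–Schnell).

The theorem:
* for all `n`: in the rows `p ≤ r` the Hodge numbers of `α` and `β` agree, and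
  `χ(X, Ω^p) = χ(Y, Ω^p)`.  So `χ(O)` is a derived invariant if the Albanese fibres have dimension at
  most two, and the `χ_y`-genus is one if the Albanese defect is at most two.
* `n = 5`: all Hodge numbers are derived invariants if the Albanese defect is at most two, and all
  `h^{p,q}` with `p ≠ q` are, if the Albanese fibres have dimension at most two.

In dimension five the relations of the starting file `HodgeInertia` and the invariance of `h^{0,1}`
(Popa–Schnell, hypothesis `h01`) leave exactly `h^{2,0}` and `h^{1,1}` undetermined.  The new point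
is that the relations hold for all flat line bundles `α`, that they determine all the Hodge numbers
of `α` if there is no cohomology below the degree `n - 2`, and that the Euler characteristics do not
depend on `α`.
-/

namespace Pool.Agent.Results.MP_b4fe5e_ag.IrregularFivefoldsH34

open Pool.Agent.TH125.Tw Pool.Agent.E8helper34.DI

/-- **Theorem.** (1) Euler characteristics of `Ω^p` in all dimensions. (2) Fivefolds: the two
Euler characteristics `χ(O)`, `χ(Ω¹)` determine the remaining Hodge numbers. (3) Fivefolds: all
Hodge numbers. -/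
theorem result :
    (∀ (n : ℕ) (X Y : Variety n) (α : FlatBundle X) (β : FlatBundle Y)
      (_ : Transform α.cohomology β.cohomology) (r : ℕ),
      LowRowsVanish α.cohomology r → LowRowsVanish β.cohomology r → ∀ p, p ≤ r →
        (∀ q, α.cohomology.hodgeNumber p q = β.cohomology.hodgeNumber p q) ∧
          X.chi p = Y.chi p) ∧
    (∀ (X Y : Variety 5) (_ : Transform X.cohomology Y.cohomology), X.h 0 1 = Y.h 0 1 →
      X.chi 0 = Y.chi 0 →
        (∀ p q, p ≠ q → X.h p q = Y.h p q) ∧
          (X.chi 1 = Y.chi 1 → ∀ p q, X.h p q = Y.h p q)) ∧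
    (∀ (X Y : Variety 5) (_ : Transform X.cohomology Y.cohomology) (α : FlatBundle X)
      (β : FlatBundle Y) (_ : Transform α.cohomology β.cohomology), X.h 0 1 = Y.h 0 1 →
        (LowRowsVanish α.cohomology 0 → LowRowsVanish β.cohomology 0 →
          ∀ p q, p ≠ q → X.h p q = Y.h p q) ∧
        (LowRowsVanish α.cohomology 1 → LowRowsVanish β.cohomology 1 →
          ∀ p q, X.h p q = Y.h p q)) := by
  refine ⟨fun n X Y α β Φ r hX hY p hp => ⟨twisted_eq Φ hX hY hp, chi_rows Φ hX hY hp⟩,
    fun X Y Φ h01 h0 => fivefolds Φ h01 h0, fun X Y Φ α β Φ₁ h01 => ⟨fun hX hY => ?_,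
      fun hX hY => ?_⟩⟩
  · exact (fivefolds Φ h01 (chi_rows Φ₁ hX hY (le_refl 0))).1
  · exact (fivefolds Φ h01 (chi_rows Φ₁ hX hY (Nat.zero_le 1))).2 (chi_rows Φ₁ hX hY (le_refl 1))

end Pool.Agent.Results.MP_b4fe5e_ag.IrregularFivefoldsH34
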