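import Pool.Agent.E8helper34.DI.Rows

/-!
# Derived invariance of Hodge numbers row by row; sixfolds and sevenfolds

Let `X`, `Y` be smooth projective complex varieties of dimension `n` with `D(X) ≃ D(Y)`; `KRing`, `FM`,
`Intertwines` are the structures of the starting files (Hodge theory, the isomorphism of cohomology
given by the equivalence, compatibility with multiplication by classes of type `(1, 1)`); `Chern`,
`Divisors` are explained in `SemiampleFivefoldsH34`.  Suppose that the equivalence is compatible with
nef classes `L`, `L'` which are pull-backs of ample classes by morphisms `f : X → B`, `g : Y → B'`;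
for instance `L = ± c₁` if the canonical bundle or its inverse is semiample.

`DefectBelow m` is the condition of the starting structure `DefectTwo` in the rows below `m` only.  By
the decomposition theorem and the relative Hodge–Riemann relations of de Cataldo and Migliorini it
holds for `f` if `k ≤ c + 2` for every stratum of `B` over which the fibres have dimension `k` and
whose preimage has codimension `c < m`: the part of the cohomology which comes from a stratum lives
in the rows `p, q ≥ c`.  For `m = 2`: the general fibre has dimension at most two, and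
`dim D - dim f(D) ≤ 3` for all prime divisors `D` of `X`; there is no condition on
preimages of codimension at least two.

The theorem:

1. `h^{p,q}(X) = h^{p,q}(Y)` if `p < m` or `q < m`.
2. `n = 6`: for `m = 2` all Hodge numbers agree.
3. `n = 7`: for `m = 2` all Hodge numbers agree, if the canonical bundle or its inverse is semiample
   (this gives the divisors `Divisors` by Toda's theorem).
4. `n = 6`: if the canonical bundle or its inverse is semiample and the numbers `h^{q,0}` agree (by
   `HolomorphicFormsH34` this holds if the Iitaka fibres have dimension at most three, with no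
   condition on special fibres), then all Hodge numbers agree if `h^{1,1}` does.
-/

namespace Pool.Agent.Results.MP_b4fe5e_ag.RowsH34

open Pool.Agent.W539.DI Pool.Agent.R929.DH Pool.Agent.E8helper34.DI

/-- **Theorem.** -/
theorem result :
    (∀ (n : ℕ) (m : ℤ) (X Y : KRing n) (L : X.R) (L' : Y.R), DefectBelow m X L →
      DefectBelow m Y L' → ∀ Φ : FM X Y, Intertwines Φ X.c Y.c → Intertwines Φ L L' →
        ∀ p q : ℤ, (p < m ∨ q < m) → X.h p q = Y.h p q) ∧
    (∀ (X Y : KRing 6) (L : X.R) (L' : Y.R), DefectBelow 2 X L → DefectBelow 2 Y L' →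
      ∀ Φ : FM X Y, Intertwines Φ X.c Y.c → Intertwines Φ L L' → ∀ p q, X.h p q = Y.h p q) ∧
    (∀ (X Y : KRing 7) (L : X.R) (L' : Y.R), DefectBelow 2 X L → DefectBelow 2 Y L' →
      ∀ Φ : FM X Y, Intertwines Φ X.c Y.c → Intertwines Φ L L' →
      ∀ (A : Chern X) (B : Chern Y) (M : Set ℤ), M.Infinite →
      Divisors A B M (fun Z Z' => Nonempty (FM Z Z')) → ∀ p q, X.h p q = Y.h p q) ∧
    (∀ (X Y : KRing 6) (_ : FM X Y) (A : Chern X) (B : Chern Y) (M : Set ℤ), M.Infinite →
      Divisors A B M (fun Z Z' => Nonempty (FM Z Z')) → (∀ q : ℕ, X.h q 0 = Y.h q 0) →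
      X.h 1 1 = Y.h 1 1 → ∀ p q, X.h p q = Y.h p q) := by
  refine ⟨fun n m X Y L L' hX hY Φ hc hL p q h => main_row hX hY hc hL p q h,
    fun X Y L L' hX hY Φ hc hL p q => six_all Φ (fun p q h => main_row hX hY hc hL p q h) p q,
    fun X Y L L' hX hY Φ hc hL A B M hM hZ p q => ?_, fun X Y Φ A B M hM hZ h0 h11 p q => ?_⟩
  · have h := hZ.mono (Q := fun Z Z' => eulerNumber Z = eulerNumber Z') fun Z Z' ⟨Ψ⟩ => euler_eq Ψ
    exact seven_all Φ (fun p q h => main_row hX hY hc hL p q h) (secondMoment_eq Φ A B hM h) p q
  · have h := hZ.mono (Q := fun Z Z' => eulerNumber Z = eulerNumber Z') fun Z Z' ⟨Ψ⟩ => euler_eq Ψ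
    exact six_h11 Φ h0 (secondMoment_eq Φ A B hM h) h11 p q

end Pool.Agent.Results.MP_b4fe5e_ag.RowsH34
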