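import Pool.Agent.E8helper34.DI.Pluri

/-!
# Derived invariance of Hodge numbers: fivefolds with semiample canonical or anticanonical bundle

Let `X`, `Y` be smooth projective complex varieties of dimension `N = n + 1` with `D(X) ≃ D(Y)`, such
that the canonical bundle of `X` or its inverse is semiample (the same then holds for `Y`), for
instance good minimal models.  `KRing`, `FM` are the structures of the starting files (the Hodge
theory of a variety; the isometry of cohomology given by an equivalence), `Chern` are the Chern and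
Todd classes with the theorems of Gauss–Bonnet, Hirzebruch–Riemann–Roch, Serre and Libgober–Wood.

An equivalence induces isomorphisms `H⁰(X, mK) ≃ H⁰(Y, mK)` (Orlov), and if the divisors `Z ∈ |mK_X|`,
`Z' ∈ |mK_Y|` of corresponding sections are smooth, then it induces equivalences `D(Z_i) ≃ D(Z'_i)`
between the connected components of `Z` and `Z'` (Toda, *Fourier–Mukai transforms and canonical
divisors*, Theorem 1.1).  Such divisors exist for infinitely many (positive or negative) `m` if the
(anti)canonical bundle is semiample, by Bertini's theorem; this is the hypothesis `Divisors`.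

The theorem:

1. In every dimension `N` the Chern number `c₁ c_{N-1}`, and hence the number
   `∑ (-1)^{p+q} (2p - N)² h^{p,q}`, is a derived invariant.
2. If `N` is odd and `χ(O_Z) = χ(O_{Z'})` for the divisors, then `χ(O_X) = χ(O_Y)`.
3. If `N = 5`, then all Hodge numbers of `X` and `Y` agree.  (The hypotheses on `h^{1,0}` are
   the theorem of Popa and Schnell; the case `c₁ = 0`, where there are no divisors, is
   the starting file `TorsionCanonicalFivefolds`.)

The proof: `e(Z_m)` is a polynomial in `m` with linear coefficient `∫ K c_{N-1}`, and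
`χ(O_{Z_m}) = χ(O_X) - χ(X, -mK)`.  So if the left sides agree then `χ(X, mK)` and `χ(Y, mK)` differ by
a constant, and for odd `N` Serre duality, `χ(X, (1-m)K) = -χ(X, mK)`, shows that the constant is
zero.  For `N = 5` the `Z_m` are fourfolds, all of whose Hodge numbers are derived
invariants by the starting file `HodgeInertia` and Popa–Schnell.  The same relations leave `h^{2,0}`
and `h^{1,1}` of the fivefolds undetermined, and these are given by `χ(O_X)` and `c₁ c₄`.
-/

namespace Pool.Agent.Results.MP_b4fe5e_ag.SemiampleFivefoldsH34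

open Pool.Agent.W539.DI Pool.Agent.R929.DH Pool.Agent.E8helper34.DI

/-- **Theorem.** -/
theorem result :
    (∀ (n : ℕ) (X Y : KRing (n + 1)) (A : Chern X) (B : Chern Y) (_ : FM X Y) (M : Set ℤ),
      M.Infinite → Divisors A B M (fun Z Z' => Nonempty (FM Z Z')) →
        X.tr (A.c 1 * A.c n) = Y.tr (B.c 1 * B.c n) ∧ secondMoment X = secondMoment Y) ∧
    (∀ (n : ℕ) (_ : Odd (n + 1)) (X Y : KRing (n + 1)) (A : Chern X) (B : Chern Y) (M : Set ℤ),
      M.Infinite → Divisors A B M (fun Z Z' => chiO Z = chiO Z') → chiO X = chiO Y) ∧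
    (∀ (X Y : KRing 5) (A : Chern X) (B : Chern Y) (_ : FM X Y) (M : Set ℤ), M.Infinite →
      Divisors A B M (fun Z Z' => Nonempty (FM Z Z') ∧ Z.h 1 0 = Z'.h 1 0) →
      X.h 1 0 = Y.h 1 0 → ∀ p q, X.h p q = Y.h p q) := by
  refine ⟨fun n X Y A B Φ M hM hZ => ?_, fun n hn X Y A B M hM hZ => ?_,
    fun X Y A B Φ M hM hZ h10 p q => ?_⟩
  · have h := hZ.mono (Q := fun Z Z' => eulerNumber Z = eulerNumber Z') fun Z Z' ⟨Ψ⟩ => euler_eq Ψ
    exact ⟨c1cn_eq A B hM h, secondMoment_eq Φ A B hM h⟩
  · refine chiO_eq ?_ A B hM hZ
    rcases Nat.even_or_odd n with h | h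
    · exact h
    · exact absurd hn (Nat.not_odd_iff_even.2 h.add_one)
  · have h := hZ.mono (Q := fun Z Z' => eulerNumber Z = eulerNumber Z') fun Z Z' h =>
      h.1.elim fun Ψ => euler_eq Ψ
    have h' := hZ.mono (Q := fun Z Z' => chiO Z = chiO Z') fun Z Z' h => by
      obtain ⟨⟨Ψ⟩, h1⟩ := h
      unfold chiO
      exact Finset.sum_congr rfl fun q _ => by rw [Ψ.four_all h1]
    exact five_all Φ h10 (chiO_eq (by decide) A B hM h') (secondMoment_eq Φ A B hM h) p q

end Pool.Agent.Results.MP_b4fe5e_ag.SemiampleFivefoldsH34
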